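import Pool.Agent.NH24.DM.Seven

/-!
# MP_cbe134_nt: relations between multiple zeta values of weight `k` with boundedly many dominant words

Linear combinations of multiple zeta values of large weight `k`, of all depths, whose arguments are at least `δ k`,
at arbitrary positions. If every word of the combination lies within `c k` above one of at most `s` words `u` for
the (weighted) dominance order, where the coefficient of `u` is a nonzero integer of absolute value at most
`(1 + c) ^ k` and the coefficients of the words above `u` grow at most exponentially with the distance from `u`,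
then the combination has absolute value greater than `B ^ (-k)`. The words may fill windows of side `c k` in all
directions.
-/

set_option autoImplicit false

namespace Pool.Agent.Results.MP_cbe134_nt.DominantWords

/-- `trunc [s_1, ..., s_r] m` is the sum of `∏ n_i ^ (-s_i)` over `m > n_1 > ... > n_r ≥ 1` -/
noncomputable def trunc : List ℕ → ℕ → ℝ
  | [], _ => 1
  | s :: l, m => ∑ j ∈ Finset.Ico 1 m, trunc l j / (j : ℝ) ^ s

/-- the multiple zeta value `ζ(s_1, ..., s_r)`, `s_1` belongs to the largest variable -/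
noncomputable def mzv : List ℕ → ℝ
  | [] => 1
  | s :: l => ∑' m : ℕ, trunc l (m + 1) / ((m + 1 : ℕ) : ℝ) ^ s

/-- admissible indices: `(s_1, ..., s_r)` with `r ≥ 1`, `s_1 ≥ 2` and all `s_i ≥ 1` -/
def AdmissibleIndex : List ℕ → Prop
  | [] => False
  | s :: l => 2 ≤ s ∧ ∀ t ∈ l, 1 ≤ t

/-- the number of arguments `≥ 2` -/
def height (w : List ℕ) : ℕ := w.countP (fun s => decide (2 ≤ s))

/-- the weighted partial sums `∑_{j ≤ i} D ^ (i - j) w_j` of `w = [w_0, w_1, ...]` -/
def sigma (D : ℕ) (w : List ℕ) (i : ℕ) : ℕ := ∑ j ∈ Finset.range (i + 1), D ^ (i - j) * w.getD j 0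

/-- the distance: the sum of the differences of the weighted partial sums, the last one left out -/
def dist (D : ℕ) (u w : List ℕ) : ℕ := ∑ i ∈ Finset.range (w.length - 1), (sigma D w i - sigma D u i)

lemma trunc_eq (w : List ℕ) : ∀ m, trunc w m = Pool.Agent.Y760.ZG.hr w m := by
  induction w with
  | nil => intro m; rw [trunc, Pool.Agent.Y760.ZG.hr_nil]
  | cons s w ih =>
    intro m
    rw [trunc, Pool.Agent.Y760.ZG.hr_cons]
    exact Finset.sum_congr rfl fun j _ => by rw [ih]

lemma mzv_eq : mzv = Pool.Agent.Y760.ZG.mz := by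
  funext w
  cases w with
  | nil => rw [mzv, Pool.Agent.Y760.ZG.mz]
  | cons s w =>
    rw [mzv, Pool.Agent.Y760.ZG.mz]
    exact tsum_congr fun m => by rw [trunc_eq]

lemma adm_small {u : List ℕ} (h : AdmissibleIndex u) :
    (∀ m ∈ u, 1 ≤ m) ∧ ∀ x ∈ u.head?, 2 ≤ x := by
  cases u with
  | nil => exact h.elim
  | cons s l =>
    refine ⟨fun m hm => ?_, fun x hx => ?_⟩
    · rcases List.mem_cons.1 hm with rfl | hm
      · exact le_trans (by norm_num) h.1
      · exact h.2 m hm
    · rw [List.head?_cons, Option.mem_def, Option.some.injEq] at hx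
      rw [← hx]
      exact h.1

/-- Let `δ, ε > 0`, let `C`, `κ`, `K` be real and `s`, `D` natural numbers. There are `c > 0` and `B > 1` such that
for all large `k`, all finite sets `S` of indices of weight `k` with all arguments `≥ δ k`, all nonempty subsets
`T` of `S` with at most `s` elements and all integers `e_w`, `w ∈ S`, such that `e_u ≠ 0` and
`|e_u| ≤ (1 + c) ^ k` for `u ∈ T`, and such that for every `w ∈ S` there is `u ∈ T` of the same depth with
`σ_i(u) ≤ σ_i(w) ≤ σ_i(u) + c k` for all `i` smaller than the last one and `|e_w| ≤ C ^ dist(u, w) |e_u|`: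
`|∑_{w ∈ S} e_w ζ(w) - ∑_{h ∈ H} b_h ζ(h)| > B ^ (-k)` for all finite sets `H` of admissible indices of weight at
most `κ k` with at least `ε k` arguments `≥ 2` and all real `b_h` with `|b_h| ≤ K ^ k`. -/
theorem result (δ ε C κ K : ℝ) (hδ : 0 < δ) (hε : 0 < ε) (s D : ℕ) :
    ∃ c B : ℝ, 0 < c ∧ 1 < B ∧ ∃ k0 : ℕ, ∀ k : ℕ, k0 ≤ k →
      ∀ (S T : Finset (List ℕ)) (e : List ℕ → ℤ), T.Nonempty → T ⊆ S → T.card ≤ s →
      (∀ w ∈ S, w.sum = k ∧ ∀ x ∈ w, δ * k ≤ (x : ℝ)) →
      (∀ u ∈ T, e u ≠ 0 ∧ |(e u : ℝ)| ≤ (1 + c) ^ k) →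
      (∀ w ∈ S, ∃ u ∈ T, u.length = w.length ∧
        (∀ i, i + 1 < w.length → sigma D u i ≤ sigma D w i ∧ (sigma D w i : ℝ) ≤ sigma D u i + c * k) ∧
        |(e w : ℝ)| ≤ C ^ dist D u w * |(e u : ℝ)|) →
      ∀ H : Finset (List ℕ),
      (∀ h ∈ H, AdmissibleIndex h ∧ (h.sum : ℝ) ≤ κ * k ∧ ε * k ≤ height h) →
      ∀ b : List ℕ → ℝ, (∀ h ∈ H, |b h| ≤ K ^ k) →
      (B ^ k)⁻¹ < |∑ w ∈ S, (e w : ℝ) * mzv w - ∑ h ∈ H, b h * mzv h| := by
  obtain ⟨c, B, hc, hB, k0, h0⟩ := Pool.Agent.NH24.DM.main δ C κ K ε hδ hε s D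
  refine ⟨c, B, hc, hB, k0, fun k hk S T e hT hTS hTs hS he hdom H hH b hb => ?_⟩
  have h1 := h0 k hk S T e
    { ne := hT
      sub := hTS
      card := hTs
      wt := fun w hw => (hS w hw).1
      arg := fun w hw => (hS w hw).2
      e0 := fun u hu => (he u hu).1
      e1 := fun u hu => (he u hu).2
      dom := hdom } H
    (fun h hh => ⟨(adm_small (hH h hh).1).1, (adm_small (hH h hh).1).2, (hH h hh).2.1, (hH h hh).2.2⟩) b hb
  rw [mzv_eq]
  exact h1

end Pool.Agent.Results.MP_cbe134_nt.DominantWords
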