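import Pool.Agent.NH24.GD.H

/-!
# Multiple zeta values of weight `k` all of whose arguments are near multiples of `k / b`

Let `b ≥ 2`, `t, γ > 0` and `(b - 1) t + γ < 1`. For all large `k` the multiple zeta values
`ζ(k_1, ..., k_r)` of weight `k`, of all depths `r` (automatically `r ≤ b`), such that every argument `k_i`
is within `k ^ t / b` of a positive integral multiple of `k / b`, satisfy no nontrivial linear relation with
integer coefficients of absolute value at most `2 ^ (k ^ γ)`. There are about `k ^ ((b - 1) t)` such values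
of depth `b`, and the box principle shows that the lower bound of the theorem fails if `(b - 1) t + γ > 1`.

Proof: the tuples `n_1 > ... > n_r` in the series of all the values are put into classes according to the
integer `∏ n_i ^ (a_i)`, where `a_i` is the multiple that belongs to `k_i`. If the combination is too small,
then the sum over each class with `∏ n_i ^ (a_i) ≤ X` vanishes. If the last multiple `a_r` is maximal, then a
tuple of primes and `1` is alone in its class, by counting prime factors. So a polynomial whose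
coefficients are the unknown coefficients vanishes at tuples of primes; all variables but one are eliminated
by the number of zeros, the last one by the number of zeros or by divisibility.
-/

set_option autoImplicit false

namespace Pool.Agent.Results.MP_cbe134_nt.NearMultiples

/-- `trunc [s_1, ..., s_r] m` is the sum of `∏ n_i ^ (-s_i)` over `m > n_1 > ... > n_r ≥ 1` -/
noncomputable def trunc : List ℕ → ℕ → ℝ
  | [], _ => 1
  | s :: l, m => ∑ j ∈ Finset.Ico 1 m, trunc l j / (j : ℝ) ^ s

/-- the multiple zeta value `ζ(s_1, ..., s_r)`, `s_1` belongs to the largest variable -/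
noncomputable def mzv : List ℕ → ℝ
  | [] => 1
  | s :: l => ∑' m : ℕ, trunc l (m + 1) / ((m + 1 : ℕ) : ℝ) ^ s

lemma trunc_eq (w : List ℕ) : ∀ m, trunc w m = Pool.Agent.NH24.GD.trunc w m := by
  induction w with
  | nil =>
    intro m
    rw [trunc, Pool.Agent.NH24.GD.trunc]
  | cons s w ih =>
    intro m
    rw [trunc, Pool.Agent.NH24.GD.trunc]
    exact Finset.sum_congr rfl fun j _ => by rw [ih]

lemma mzv_eq (w : List ℕ) : mzv w = Pool.Agent.NH24.GD.mzv w := by
  cases w with
  | nil => rw [mzv, Pool.Agent.NH24.GD.mzv]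
  | cons s w =>
    rw [mzv, Pool.Agent.NH24.GD.mzv]
    exact tsum_congr fun m => by rw [trunc_eq]

/-- Let `b ≥ 2`, `t, γ > 0`, `(b - 1) t + γ < 1` and `(b - 1) t < b ε`. For all large `k`, all finite sets
`S` of indices of weight `k` such that for every argument `x` of an index in `S` there is an integer `a ≥ 1`
with `|b x - a k| ≤ k ^ t`, and all integers `c_w`, `w ∈ S`, not all zero, of absolute value at most
`2 ^ (k ^ γ)`: `|∑_{w ∈ S} c_w ζ(w)| > k ^ (-ε k)`. -/
theorem result (b : ℕ) (hb : 2 ≤ b) (t γ ε : ℝ) (ht : 0 < t) (hγ : 0 < γ)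
    (h : ((b : ℝ) - 1) * t + γ < 1) (hε : ((b : ℝ) - 1) * t < b * ε) :
    ∃ k0 : ℕ, ∀ k : ℕ, k0 ≤ k → ∀ S : Finset (List ℕ),
      (∀ w ∈ S, w.sum = k ∧ ∀ x ∈ w, ∃ a : ℕ, 1 ≤ a ∧ |(b : ℝ) * x - a * k| ≤ (k : ℝ) ^ t) →
      ∀ c : List ℕ → ℤ, (∃ w ∈ S, c w ≠ 0) → (∀ w ∈ S, |(c w : ℝ)| ≤ (2 : ℝ) ^ ((k : ℝ) ^ γ)) →
      ((k : ℝ) ^ (ε * k))⁻¹ < |∑ w ∈ S, (c w : ℝ) * mzv w| := by
  obtain ⟨k0, h0⟩ := Pool.Agent.NH24.GD.main hb ht hγ h hε
  refine ⟨k0, fun k hk S hS c hc hcH => ?_⟩
  have h1 := h0 k hk S hS c hc hcH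
  simp only [← mzv_eq] at h1
  exact h1

end Pool.Agent.Results.MP_cbe134_nt.NearMultiples
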