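import Mathlib
import Pool.Agent.NH24.OL.All

/-!
# Multiple zeta values with one large argument

The indices `(n + j, w)`, `0 ≤ j ≤ J`, where `w` is any word of weight at most `Q` and length at most `d`. The
number of these indices is `(J + 1) 2 ^ Q` if `d ≥ Q`. There are no linear relations between their multiple zeta
values with coefficients of absolute value at most `2 ^ h` if `40 (M² (Q + log (M + 1)) + M h) ≤ n`, where
`M = (J + 1) min (2 ^ Q, (Q + 1) ^ d)`. All constants are explicit. With `J = Q`, `n = k - Q` this contains the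
indices `(k - |w|, w)` of weight `k`.
-/

set_option autoImplicit false

namespace Pool.Agent.Results.MP_cbe134_nt.OneLargeArgument

/-- `trunc [s_1, ..., s_r] m` is the sum of `∏ n_i ^ (-s_i)` over `m > n_1 > ... > n_r ≥ 1` -/
noncomputable def trunc : List ℕ → ℕ → ℝ
  | [], _ => 1
  | s :: l, m => ∑ j ∈ Finset.Ico 1 m, trunc l j / (j : ℝ) ^ s

/-- the multiple zeta value `ζ(s_1, ..., s_r)`, `s_1` belongs to the largest variable -/
noncomputable def mzv : List ℕ → ℝ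
  | [] => 1
  | s :: l => ∑' m : ℕ, trunc l (m + 1) / ((m + 1 : ℕ) : ℝ) ^ s

lemma trunc_eq (w : List ℕ) : ∀ m, trunc w m = Pool.Agent.Y760.ZG.hr w m := by
  induction w with
  | nil => intro m; rw [trunc, Pool.Agent.Y760.ZG.hr_nil]
  | cons s w ih =>
    intro m
    rw [trunc, Pool.Agent.Y760.ZG.hr_cons]
    exact Finset.sum_congr rfl fun j _ => by rw [ih]

lemma mzv_eq : mzv = Pool.Agent.Y760.ZG.mz := by
  funext w
  cases w with
  | nil => rw [mzv, Pool.Agent.Y760.ZG.mz]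
  | cons s w =>
    rw [mzv, Pool.Agent.Y760.ZG.mz]
    exact tsum_congr fun m => by rw [trunc_eq]

/-- For all natural numbers `n`, `J`, `Q`, `d`, `h` and `M = (J + 1) min (2 ^ Q, (Q + 1) ^ d)` with
`40 (M ^ 2 (Q + log (M + 1)) + M h) ≤ n`, all finite sets `S` of pairs `(j, w)`, where `j ≤ J` and `w` is a word of
positive integers of sum at most `Q` and length at most `d`, and all integers `c_(j,w)` (`(j, w) ∈ S`), not all
zero, of absolute value at most `2 ^ h`: `|∑_S c_(j,w) ζ(n + j, w)| ≥ (40 M) ^ (-n)`. -/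
theorem result (n J Q d h M : ℕ) (hM : M = (J + 1) * min (2 ^ Q) ((Q + 1) ^ d))
    (hn : (40 : ℝ) * ((M : ℝ) ^ 2 * (Q + Real.log (M + 1)) + M * h) ≤ n)
    (S : Finset (ℕ × List ℕ))
    (hS : ∀ p ∈ S, p.1 ≤ J ∧ (∀ x ∈ p.2, 1 ≤ x) ∧ p.2.sum ≤ Q ∧ p.2.length ≤ d)
    (c : ℕ × List ℕ → ℤ) (hc : ∀ p ∈ S, |(c p : ℝ)| ≤ (2 : ℝ) ^ h) (hne : ∃ p ∈ S, c p ≠ 0) :
    (((40 : ℝ) * M) ^ n)⁻¹ ≤ |∑ p ∈ S, (c p : ℝ) * mzv ((n + p.1) :: p.2)| := by
  rw [mzv_eq]
  obtain ⟨p0, hp0, hc0⟩ := hne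
  have h1 := Pool.Agent.NH24.OL.expl Pool.Agent.NH24.OL.t_ind one_pos Pool.Agent.NH24.OL.ms_one (A := 1) le_rfl
    (by norm_num) (by simp) (n := n) (J := J) (Q := Q) (d := d) (h := h) (M := M) hM (by
      rw [Real.log_one, mul_zero, add_zero, Nat.cast_zero, zero_add, one_mul]
      exact hn) hS (a := fun p _ => c p) (fun p hp _ => hc p hp) ⟨p0, hp0, fun h => hc0 (congrFun h 0)⟩
  have h2 : ∑ p ∈ S, (∑ i : Fin 1, (c p : ℝ) * (![1] : Fin 1 → ℝ) i) *
      Pool.Agent.Y760.ZG.mz ((n + p.1) :: p.2) =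
      ∑ p ∈ S, (c p : ℝ) * Pool.Agent.Y760.ZG.mz ((n + p.1) :: p.2) := by
    refine Finset.sum_congr rfl fun p _ => ?_
    rw [Fin.sum_univ_one, Matrix.cons_val_fin_one, mul_one]
  rwa [h2] at h1

end Pool.Agent.Results.MP_cbe134_nt.OneLargeArgument
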