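import Pool.Agent.NH83.EM.H3

/-!
# Multiple zeta values of weight `k`: products with growing powers of `ζ(2)`

For all large `k` and all `b ≤ c log k / log log k` the products `ζ(2) ^ j ζ(k_1, ..., k_r)`, `j ≤ c log k`, of all depths,
in which every argument `k_i` is within `(log k) ^ a / b` of a positive integral multiple of `k / b`, satisfy no nontrivial
linear relation with integer coefficients of total size at most `2 ^ (k ^ γ)`, `γ < 1`. The depth and the power of `ζ(2)`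
are not bounded. The proof uses a transcendence measure of `π` whose exponent grows at most exponentially with the degree.
-/

set_option autoImplicit false

namespace Pool.Agent.Results.MP_cbe134_nt.ProductsWithZetaTwo

/-- `trunc [s_1, ..., s_r] m` is the sum of `∏ n_i ^ (-s_i)` over `m > n_1 > ... > n_r ≥ 1` -/
noncomputable def trunc : List ℕ → ℕ → ℝ
  | [], _ => 1
  | s :: l, m => ∑ j ∈ Finset.Ico 1 m, trunc l j / (j : ℝ) ^ s

/-- the multiple zeta value `ζ(s_1, ..., s_r)`, `s_1` belongs to the largest variable -/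
noncomputable def mzv : List ℕ → ℝ
  | [] => 1
  | s :: l => ∑' m : ℕ, trunc l (m + 1) / ((m + 1 : ℕ) : ℝ) ^ s

lemma trunc_eq (w : List ℕ) : ∀ m, trunc w m = Pool.Agent.Y760.ZG.hr w m := by
  induction w with
  | nil => intro m; rw [trunc, Pool.Agent.Y760.ZG.hr_nil]
  | cons s w ih =>
    intro m
    rw [trunc, Pool.Agent.Y760.ZG.hr_cons]
    exact Finset.sum_congr rfl fun j _ => by rw [ih]

lemma mzv_eq : mzv = Pool.Agent.Y760.ZG.mz := by
  funext w
  cases w with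
  | nil => rw [mzv, Pool.Agent.Y760.ZG.mz]
  | cons s w =>
    rw [mzv, Pool.Agent.Y760.ZG.mz]
    exact tsum_congr fun m => by rw [trunc_eq]

/-- Let `a ≥ 0`, `0 < γ < 1` and `ε > 0`. There is `c > 0` such that for all large `k`, all `b ≥ 1` with
`b log log k ≤ c log k`, all `E ≤ c log k`, all finite sets `S` of pairs `(j, w)`, `j ≤ E`, `w` an index of weight at most
`k` such that for every argument `x` of `w` there is an integer `i ≥ 1` with `|b x - i k| ≤ (log k) ^ a`, and all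
integers `q_{j,w}`, `(j, w) ∈ S`, not all zero, of total size at most `2 ^ (k ^ γ)`:
`|∑_{(j,w) ∈ S} q_{j,w} ζ(2) ^ j ζ(w)| > k ^ (-ε k)`. -/
theorem result (a γ ε : ℝ) (ha : 0 ≤ a) (hγ0 : 0 < γ) (hγ1 : γ < 1) (hε : 0 < ε) :
    ∃ c : ℝ, 0 < c ∧ ∃ k0 : ℕ, ∀ k : ℕ, k0 ≤ k → ∀ b E : ℕ, 1 ≤ b →
      (b : ℝ) * Real.log (Real.log k) ≤ c * Real.log k → (E : ℝ) ≤ c * Real.log k →
      ∀ S : Finset (ℕ × List ℕ), (∀ p ∈ S, p.1 ≤ E ∧ p.2.sum ≤ k ∧
        ∀ x ∈ p.2, ∃ i : ℕ, 1 ≤ i ∧ |(b : ℝ) * x - i * k| ≤ (Real.log k) ^ a) →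
      ∀ q : ℕ × List ℕ → ℤ, (∃ p ∈ S, q p ≠ 0) → ∑ p ∈ S, |(q p : ℝ)| ≤ (2 : ℝ) ^ ((k : ℝ) ^ γ) →
      ((k : ℝ) ^ (ε * k))⁻¹ < |∑ p ∈ S, (q p : ℝ) * (mzv [2] ^ p.1 * mzv p.2)| := by
  rw [mzv_eq]
  exact Pool.Agent.NH83.EM.prods ha hγ0 hγ1 hε

end Pool.Agent.Results.MP_cbe134_nt.ProductsWithZetaTwo
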